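import Pool.Agent.Q123.VNum2

set_option autoImplicit false

namespace Pool.Agent.Results.MP_0bcfe8_al.EdgeIdealDrop

open MvPolynomial Pool.Agent.Q123

/-- the vertices: `inl i` are the vertices `t_i` of the central triangle and `inr (i, j, b)` are the
other two vertices of the `j`-th triangle hanging at `t_i` -/
abbrev V (m : ℕ) := Fin 3 ⊕ (Fin 3 × Fin m × Bool)

/-- the central triangle `t_0 t_1 t_2`, with `m` further triangles hanging at each of its three
vertices -/
def theGraph (m : ℕ) : SimpleGraph (V m) where
  Adj := fun
    | .inl i, .inl i' => i ≠ i'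
    | .inl i, .inr x => i = x.1
    | .inr x, .inl i => i = x.1
    | .inr x, .inr y => x.1 = y.1 ∧ x.2.1 = y.2.1 ∧ x.2.2 ≠ y.2.2
  symm := ⟨by
    rintro (i | x) (j | y) h
    · exact Ne.symm h
    · exact h
    · exact h
    · exact ⟨h.1.symm, h.2.1.symm, Ne.symm h.2.2⟩⟩
  loopless := ⟨by
    rintro (i | x) h
    · exact h rfl
    · exact h.2.2 rfl⟩

section

variable {K : Type*} [Field K] {m : ℕ}

theorem adj_ll {i j : Fin 3} : (theGraph m).Adj (.inl i) (.inl j) ↔ i ≠ j := Iff.rfl
theorem adj_lr {i : Fin 3} {x : Fin 3 × Fin m × Bool} :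
    (theGraph m).Adj (.inl i) (.inr x) ↔ i = x.1 := Iff.rfl
theorem adj_rl {i : Fin 3} {x : Fin 3 × Fin m × Bool} :
    (theGraph m).Adj (.inr x) (.inl i) ↔ i = x.1 := Iff.rfl
theorem adj_rr {x y : Fin 3 × Fin m × Bool} :
    (theGraph m).Adj (.inr x) (.inr y) ↔ x.1 = y.1 ∧ x.2.1 = y.2.1 ∧ x.2.2 ≠ y.2.2 := Iff.rfl

theorem edge_mem {u v : V m} (h : (theGraph m).Adj u v) :
    (X u * X v : MvPolynomial (V m) K) ∈ edgeIdeal K (theGraph m) :=
  Ideal.subset_span ⟨u, v, h, rfl⟩

/-- the exponent of the monomial `t_0 ∏_j x_{1,j} ∏_j x_{2,j}` -/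
noncomputable def wit (m : ℕ) : V m →₀ ℕ :=
  Finsupp.equivFunOnFinite.symm
    (Sum.elim (fun i => if i = 0 then 1 else 0)
      (fun x => if x.1 ≠ 0 ∧ x.2.2 = false then 1 else 0))

theorem wit_inl (i : Fin 3) : wit m (.inl i) = if i = 0 then 1 else 0 := rfl
theorem wit_inr (x : Fin 3 × Fin m × Bool) :
    wit m (.inr x) = if x.1 ≠ 0 ∧ x.2.2 = false then 1 else 0 := rfl

theorem degree_eq (u : V m →₀ ℕ) : u.degree =
    ∑ i : Fin 3, (u (.inl i) + ∑ j : Fin m, (u (.inr (i, j, true)) + u (.inr (i, j, false)))) := by
  rw [Finsupp.degree_eq_sum, Fintype.sum_sum_type, Finset.sum_add_distrib]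
  congr 1
  rw [Fintype.sum_prod_type]
  refine Finset.sum_congr rfl fun i _ => ?_
  rw [Fintype.sum_prod_type]
  refine Finset.sum_congr rfl fun j _ => ?_
  rw [Fintype.sum_bool]

theorem wit_degree : (wit m).degree = 2 * m + 1 := by
  rw [degree_eq, Fin.sum_univ_three]
  simp [wit_inl, wit_inr]
  omega

theorem le_wt : edgeIdeal K (theGraph m) ≤ wtIdeal K (1 : V m → ℕ) 2 := by
  unfold edgeIdeal
  rw [Ideal.span_le]
  rintro _ ⟨a, b, hab, rfl⟩
  have : (X a * X b : MvPolynomial (V m) K) ∈ wtIdeal K (1 : V m → ℕ) 2 := by
    simp only [X, monomial_mul, mul_one]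
    rw [monomial_mem_wtIdeal, weight_one_eq]
    simp
  exact this

theorem v_one (hm : 1 ≤ m) : vNumber (edgeIdeal K (theGraph m)) = 2 * m + 1 := by
  classical
  apply sInf_eq_of
  · refine ⟨monomial (wit m) 1, isHomogeneous_monomial _ wit_degree, _,
      isPrime_span_X_image {w | ∃ c, (theGraph m).Adj w c ∧ wit m c ≠ 0}, ?_⟩
    apply mem_span_nbrs_iff
    · rintro (i | x) (j | y) h
      · rw [adj_ll] at h
        rw [wit_inl, wit_inl]
        by_cases hi : i = 0
        · right; rw [if_neg]; rintro rfl; exact h hi
        · left; rw [if_neg hi]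
      · rw [adj_lr] at h
        rw [wit_inl, wit_inr]
        by_cases hi : i = 0
        · right; rw [if_neg]; rintro ⟨h1, -⟩; exact h1 (h ▸ hi)
        · left; rw [if_neg hi]
      · rw [adj_rl] at h
        rw [wit_inl, wit_inr]
        by_cases hi : j = 0
        · left; rw [if_neg]; rintro ⟨h1, -⟩; exact h1 (h ▸ hi)
        · right; rw [if_neg hi]
      · rw [adj_rr] at h
        rw [wit_inr, wit_inr]
        by_cases hx : x.2.2 = false
        · right; rw [if_neg]; rintro ⟨-, h1⟩; exact h.2.2 (hx.trans h1.symm)
        · left; rw [if_neg]; rintro ⟨-, h1⟩; exact hx h1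
    · -- every edge meets the set of the vertices having a neighbour in the support
      have n_inl : ∀ i : Fin 3, i ≠ 0 → ∃ c, (theGraph m).Adj (.inl i) c ∧ wit m c ≠ 0 :=
        fun i hi => ⟨.inl 0, hi, by simp [wit_inl]⟩
      have n_inr0 : ∀ (j : Fin m) (b : Bool),
          ∃ c, (theGraph m).Adj (.inr (0, j, b)) c ∧ wit m c ≠ 0 :=
        fun j b => ⟨.inl 0, rfl, by simp [wit_inl]⟩
      have n_inr : ∀ (i : Fin 3) (j : Fin m), i ≠ 0 →
          ∃ c, (theGraph m).Adj (.inr (i, j, true)) c ∧ wit m c ≠ 0 :=
        fun i j hi => ⟨.inr (i, j, false), ⟨rfl, rfl, by simp⟩, by simp [wit_inr, hi]⟩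
      rintro (i | ⟨i, j, b⟩) (i' | ⟨i', j', b'⟩) h
      · rw [adj_ll] at h
        by_cases hi : i = 0
        · right
          apply n_inl
          rintro rfl
          exact h hi
        · exact Or.inl (n_inl i hi)
      · rw [adj_lr] at h
        simp only at h
        subst h
        by_cases hi : i = 0
        · right
          subst hi
          exact n_inr0 _ _
        · exact Or.inl (n_inl i hi)
      · rw [adj_rl] at h
        simp only at h
        subst h
        by_cases hi : i' = 0
        · left
          subst hi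
          exact n_inr0 _ _
        · exact Or.inr (n_inl i' hi)
      · rw [adj_rr] at h
        obtain ⟨h1, h2, h3⟩ := h
        simp only at h1 h2 h3
        subst h1 h2
        by_cases hi : i = 0
        · left
          subst hi
          exact n_inr0 _ _
        · cases b
          · cases b'
            · exact absurd rfl h3
            · exact Or.inr (n_inr i j hi)
          · exact Or.inl (n_inr i j hi)
  · rintro d ⟨f, hf, p, hp, hpf⟩
    have hI : edgeIdeal K (theGraph m) ≤ p := by
      intro g hg
      rw [hpf]
      exact Ideal.mul_mem_right _ _ hg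
    have hfI : f ∉ edgeIdeal K (theGraph m) := by
      intro h
      apply hp.ne_top
      rw [Ideal.eq_top_iff_one, hpf, one_mul]
      exact h
    rw [mem_edgeIdeal] at hfI
    push Not at hfI
    obtain ⟨u, hu, hu1⟩ := hfI
    have key : ∀ w, X w ∈ p → ∃ c, (theGraph m).Adj w c ∧ u c ≠ 0 := by
      intro w hw
      rw [hpf] at hw
      obtain ⟨a, b, hab, ha, hb⟩ := (mem_edgeIdeal _).1 hw _ (support_X_mul' w f hu)
      rw [Finsupp.add_apply] at ha hb
      by_cases haw : a = w
      · subst haw
        refine ⟨b, hab, ?_⟩
        simpa [Finsupp.single_apply, hab.ne] using hb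
      · by_cases hbw : b = w
        · subst hbw
          refine ⟨a, hab.symm, ?_⟩
          simpa [Finsupp.single_apply, hab.ne'] using ha
        · have ha' : u a ≠ 0 := by simpa [Finsupp.single_apply, Ne.symm haw] using ha
          have hb' : u b ≠ 0 := by simpa [Finsupp.single_apply, Ne.symm hbw] using hb
          exact absurd hb' (by simpa using hu1 a b hab ha')
    rw [← degree_of_mem_support hf hu, degree_eq, Fin.sum_univ_three]
    -- each block
    have block : ∀ i : Fin 3, m ≤ ∑ j : Fin m, (u (.inr (i, j, true)) + u (.inr (i, j, false))) ∨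
        1 ≤ u (.inl i) := by
      intro i
      by_cases hi : u (.inl i) = 0
      · left
        calc m = ∑ _j : Fin m, 1 := by simp
          _ ≤ _ := by
            refine Finset.sum_le_sum fun j _ => ?_
            have hadj : (theGraph m).Adj (.inr (i, j, true)) (.inr (i, j, false)) := by
              rw [adj_rr]; simp
            rcases hp.mem_or_mem (hI (edge_mem (K := K) hadj)) with h | h
            · obtain ⟨c, hc, hcu⟩ := key _ h
              rcases c with i' | ⟨i', j', b'⟩
              · rw [adj_rl] at hc
                simp only at hc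
                subst hc
                exact absurd hi hcu
              · rw [adj_rr] at hc
                obtain ⟨h1, h2, h3⟩ := hc
                simp only at h1 h2 h3
                subst h1 h2
                cases b'
                · omega
                · exact absurd rfl h3
            · obtain ⟨c, hc, hcu⟩ := key _ h
              rcases c with i' | ⟨i', j', b'⟩
              · rw [adj_rl] at hc
                simp only at hc
                subst hc
                exact absurd hi hcu
              · rw [adj_rr] at hc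
                obtain ⟨h1, h2, h3⟩ := hc
                simp only at h1 h2 h3
                subst h1 h2
                cases b'
                · exact absurd rfl h3
                · omega
      · right; omega
    have hinl : ∀ i j : Fin 3, i ≠ j → u (.inl i) = 0 ∨ u (.inl j) = 0 := by
      intro i j hij
      by_contra hne
      push Not at hne
      exact hne.2 (hu1 (.inl i) (.inl j) hij hne.1)
    have h01 := hinl 0 1 (by decide)
    have h12 := hinl 1 2 (by decide)
    have h02 := hinl 0 2 (by decide)
    have b0 := block 0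
    have b1 := block 1
    have b2 := block 2
    omega

theorem v_two : vNumber (edgeIdeal K (theGraph m) ^ 2) = 3 := by
  classical
  have hle : edgeIdeal K (theGraph m) ^ 2 ≤ wtIdeal K (1 : V m → ℕ) (2 * 2) :=
    pow_le_wtIdeal le_wt 2
  apply sInf_eq_of
  · refine ⟨X (.inl 0) * X (.inl 1) * X (.inl 2), ?_, Ideal.span (Set.range X), ?_, ?_⟩
    · have := ((isHomogeneous_X K (.inl 0 : V m)).mul (isHomogeneous_X K (.inl 1 : V m))).mul
        (isHomogeneous_X K (.inl 2 : V m))
      simpa using this
    · rw [span_range_X_eq]
      exact wtIdeal_one_isPrime _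
    · apply mem_span_X_iff_of
      · intro h
        have h1 := hle h
        simp only [X, monomial_mul, mul_one] at h1
        rw [monomial_mem_wtIdeal, weight_one_eq] at h1
        simp at h1
      · have key : ∀ w : V m, ∀ i : Fin 3, (theGraph m).Adj w (.inl i) →
            X w * (X (.inl 0) * X (.inl 1) * X (.inl 2)) ∈ edgeIdeal K (theGraph m) ^ 2 := by
          intro w i hw
          rw [pow_two]
          fin_cases i
          · rw [show (X w * (X (.inl 0) * X (.inl 1) * X (.inl 2)) : MvPolynomial (V m) K) =
              (X w * X (.inl 0)) * (X (.inl 1) * X (.inl 2)) by ring]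
            exact Ideal.mul_mem_mul (edge_mem hw) (edge_mem (by rw [adj_ll]; decide))
          · rw [show (X w * (X (.inl 0) * X (.inl 1) * X (.inl 2)) : MvPolynomial (V m) K) =
              (X w * X (.inl 1)) * (X (.inl 0) * X (.inl 2)) by ring]
            exact Ideal.mul_mem_mul (edge_mem hw) (edge_mem (by rw [adj_ll]; decide))
          · rw [show (X w * (X (.inl 0) * X (.inl 1) * X (.inl 2)) : MvPolynomial (V m) K) =
              (X w * X (.inl 2)) * (X (.inl 0) * X (.inl 1)) by ring]
            exact Ideal.mul_mem_mul (edge_mem hw) (edge_mem (by rw [adj_ll]; decide))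
        rintro (i | x)
        · by_cases hi : i = 0
          · subst hi
            exact key _ 1 (by rw [adj_ll]; decide)
          · exact key _ 0 (by rw [adj_ll]; exact hi)
        · exact key _ x.1 rfl
  · rintro d ⟨f, hf, p, hp, hpf⟩
    have hI : edgeIdeal K (theGraph m) ≤ p := by
      have h2 : edgeIdeal K (theGraph m) ^ 2 ≤ p := by
        intro g hg
        rw [hpf]
        exact Ideal.mul_mem_right _ _ hg
      exact hp.le_of_pow_le h2
    have hf0 : f ≠ 0 := by
      rintro rfl
      apply hp.ne_top
      rw [Ideal.eq_top_iff_one, hpf, one_mul]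
      exact Ideal.zero_mem _
    obtain ⟨u, hu⟩ := support_nonempty.2 hf0
    have key : ∀ w, X w ∈ p → 3 ≤ d := by
      intro w hw
      rw [hpf] at hw
      have h1 := hle hw _ (support_X_mul' w f hu)
      rw [weight_one_eq, map_add, degree_of_mem_support hf hu] at h1
      simp at h1
      omega
    have hadj : (theGraph m).Adj (.inl 0) (.inl 1) := by rw [adj_ll]; decide
    rcases hp.mem_or_mem (hI (edge_mem (K := K) hadj)) with h | h
    · exact key _ h
    · exact key _ h

end

/-- For every field `K` and every `m ≥ 1` the edge ideal `I` of the graph obtained from a triangle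
by hanging `m` further triangles at each of its vertices satisfies `v(I) = 2 m + 1` and
`v(I^2) = 3`. -/
theorem result (K : Type*) [Field K] (m : ℕ) (hm : 1 ≤ m) :
    vNumber (edgeIdeal K (theGraph m)) = 2 * m + 1 ∧
    vNumber (edgeIdeal K (theGraph m) ^ 2) = 3 :=
  ⟨v_one hm, v_two⟩

end Pool.Agent.Results.MP_0bcfe8_al.EdgeIdealDrop
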